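import Pool.Agent.K4H52.AC.Mem

/-!
# MP_1f2de8_an: the coefficient problem for alpha-convex functions

For every `0 < α < 1` and every `n` the maximum of `|a_n|` over the class `M(α)` is `A_n(α)`, where
`q_0 = 1`, `(1 + α n) q_n = 2 + ∑_{k=1}^{n-1} (2 - q_k) q_{n-k}`, `A_1 = 1` and
`(n - 1) A_n = ∑_{k=1}^{n-1} q_k A_{n-k}`; it is attained for every `n` by the function `extremal α`.

Idea of the proof. Let `q = z f'/f`, `p = q + α z q'/q` and `m = 1/α`. The solution `q₀` with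
`p₀ = (1 + z)/(1 - z)` is `1/T`, `T = m ∫_0^1 s^(m-1) (1 - s + s p₀²)^(-1/2) ds`, hence `Re q₀ > 0`;
`T` is univalent and `q = q₀ ∘ ω` with a Schwarz function `ω` (an argument with Jack's lemma).
Since `z q₀'/q₀ = m (p₀ - q₀)` and `|[q₀]_n| ≤ 2` (Caratheodory), the Taylor coefficients `g_j` of
`q₀^(1-α)` are nonnegative. Now `f' = P q^(1-α) = ∑_j g_j ω^j P`, where `z P'/P = p - 1`. Here
`P = X²` with `|X_k| ≤ 1`, and as multiplication by `(ω/z)^j` is a contraction on truncated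
sequences, `|[ω^j P]_n| ≤ n - j + 1`, with equality for `ω = z`, `P = (1 - z)^(-2)`.
-/

namespace Pool.Agent.Results.MP_1f2de8_an.CoefficientProblem

open Pool.Agent.K4H52.AC Pool.Agent.Helper610.Bohr

lemma extremal_eq (α : ℝ) : extremal α = ext α := by
  funext z
  rw [extremal, ext, phi, div_eq_mul_inv, mul_assoc]
  rfl

theorem result (α : ℝ) (h0 : 0 < α) (h1 : α < 1) :
    (∀ n : ℕ, 1 ≤ n → IsGreatest
      {t : ℝ | ∃ f : ℂ → ℂ, InM α f ∧ t = ‖iteratedDeriv n f 0 / (n.factorial : ℂ)‖} (ac α n)) ∧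
    InM α (extremal α) ∧
    ∀ n : ℕ, iteratedDeriv n (extremal α) 0 / (n.factorial : ℂ) = ((ac α n : ℝ) : ℂ) := by
  have hmem : InM α (extremal α) := by rw [extremal_eq]; exact ext_mem h0 h1
  have hco : ∀ n : ℕ, iteratedDeriv n (extremal α) 0 / (n.factorial : ℂ) = ((ac α n : ℝ) : ℂ) := by
    intro n
    rw [extremal_eq]
    exact ext_coeff_ac h0 h1 n
  refine ⟨fun n hn => ⟨⟨extremal α, hmem, ?_⟩, ?_⟩, hmem, hco⟩
  · rw [hco n, Complex.norm_real, Real.norm_eq_abs, abs_of_nonneg (ac_nonneg h0 h1 n)]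
  · rintro t ⟨f, hf, rfl⟩
    exact main h0 h1 hf hn

end Pool.Agent.Results.MP_1f2de8_an.CoefficientProblem
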